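import Pool.Agent.H815R3.GSH.Step
import Pool.Agent.H815R3.GSH.Trans
import Pool.Agent.H551.GSH.Bridge

/-!
The question of McNaughton and Papert for the regular languages recognised by a finite monoid with
a homomorphism to a finite solvable group such that the inverse image of `1` is aperiodic.
-/

set_option autoImplicit false

namespace Pool.Agent.Results.MP_1ffbee_lc.SolvableByAperiodic

open Pool.Agent.H643R2.SH
open Pool.Agent.H936R2.SH (HS)
open scoped commutatorElement

/-- `L` has generalised star height exactly `n`. -/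
def HasHeight {A : Type} (n : ℕ) (L : Language A) : Prop :=
  (∃ E : GRE A, E.height ≤ n ∧ E.lang = L) ∧ ∀ E : GRE A, E.lang = L → n ≤ E.height

/-- The syntactic monoid of `L` is a group. -/
def GroupLang {A : Type} (L : Language A) : Prop :=
  ∀ u : List A, ∃ v : List A, ∀ x y : List A,
    (x ++ (u ++ v) ++ y ∈ L ↔ x ++ y ∈ L) ∧ (x ++ (v ++ u) ++ y ∈ L ↔ x ++ y ∈ L)

theorem groupLang_of_group {A Q : Type} [Group Q] [Finite Q] (f : A → Q) (S : Set Q) :
    GroupLang ({w : List A | (w.map f).prod ∈ S} : Set (List A)) := by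
  intro u
  have hk : 0 < Nat.card Q := Nat.card_pos
  have hm : ∀ k : ℕ, (((List.replicate k u).flatten).map f).prod = (u.map f).prod ^ k := by
    intro k
    induction k with
    | zero => simp
    | succ k ih => rw [List.replicate_succ, List.flatten_cons, List.map_append,
        List.prod_append, ih, pow_succ']
  have h1 : (u.map f).prod * (u.map f).prod ^ (Nat.card Q - 1) = 1 := by
    rw [← pow_succ', Nat.sub_add_cancel hk, pow_card_eq_one']
  have h2 : (u.map f).prod ^ (Nat.card Q - 1) * (u.map f).prod = 1 := by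
    rw [← pow_succ, Nat.sub_add_cancel hk, pow_card_eq_one']
  refine ⟨(List.replicate (Nat.card Q - 1) u).flatten, fun x y => ⟨?_, ?_⟩⟩
  · change (List.map f _).prod ∈ S ↔ (List.map f _).prod ∈ S
    rw [List.map_append, List.map_append, List.map_append, List.map_append, List.prod_append,
      List.prod_append, List.prod_append, List.prod_append, hm, h1, mul_one]
  · change (List.map f _).prod ∈ S ↔ (List.map f _).prod ∈ S
    rw [List.map_append, List.map_append, List.map_append, List.map_append, List.prod_append,
      List.prod_append, List.prod_append, List.prod_append, hm, h2, mul_one]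

theorem regular_of_group {A Q : Type} [Group Q] [Finite Q] (f : A → Q) (S : Set Q) :
    Language.IsRegular ({w : List A | (w.map f).prod ∈ S} : Set (List A)) := by
  have := Fintype.ofFinite Q
  refine ⟨Q, inferInstance, ⟨fun q a => q * f a, 1, S⟩, ?_⟩
  have key : ∀ (w : List A) (q : Q), w.foldl (fun q a => q * f a) q = q * (w.map f).prod := by
    intro w
    induction w with
    | nil => intro q; simp
    | cons a w ih => intro q; rw [List.foldl_cons, ih, List.map_cons, List.prod_cons, mul_assoc]
  apply Set.ext
  intro w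
  change w.foldl (fun q a => q * f a) 1 ∈ S ↔ (w.map f).prod ∈ S
  rw [key, one_mul]

theorem exists_abelian {G : Type} [Group G] [Group.IsSolvable G] [Nontrivial G] :
    ∃ N : Subgroup G, N.Normal ∧ N ≠ ⊥ ∧ ∀ x ∈ N, ∀ y ∈ N, x * y = y * x := by
  classical
  have hs : ∃ n, derivedSeries G n = ⊥ := Group.IsSolvable.solvable
  have h0 : Nat.find hs ≠ 0 := by
    intro h
    have h1 := Nat.find_spec hs
    rw [h, derivedSeries_zero] at h1
    exact top_ne_bot h1
  obtain ⟨m, hm⟩ := Nat.exists_eq_succ_of_ne_zero h0
  refine ⟨derivedSeries G m, inferInstance, ?_, ?_⟩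
  · intro h
    have := Nat.find_min' hs h
    omega
  · intro x hx y hy
    have h1 := Nat.find_spec hs
    rw [hm, derivedSeries_succ] at h1
    have h2 : ⁅x, y⁆ ∈ (⊥ : Subgroup G) := h1 ▸ Subgroup.commutator_mem_commutator hx hy
    exact commutatorElement_eq_one_iff_mul_comm.1 (Subgroup.mem_bot.1 h2)

theorem descend {A : Type} [Finite A] (n : ℕ) : ∀ (k : ℕ) (G : Type) [Group G] [Finite G]
    [Group.IsSolvable G], Nat.card G ≤ k → ∀ (f : A → G) (S : Set G),
    ¬ HS n {w : List A | (w.map f).prod ∈ S} →
    ∃ (Q : Type) (_ : Group Q) (_ : Finite Q) (_ : Group.IsSolvable Q) (f' : A → Q) (S' : Set Q),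
      HS (n + 1) {w : List A | (w.map f').prod ∈ S'} ∧
      ¬ HS n {w : List A | (w.map f').prod ∈ S'} := by
  intro k
  induction k with
  | zero =>
    intro G _ _ _ hk
    have : 0 < Nat.card G := Nat.card_pos
    omega
  | succ k ih =>
    intro G _ _ _ hk f S hS
    rcases subsingleton_or_nontrivial G with hG | hG
    · exfalso
      apply hS
      by_cases h1 : (1 : G) ∈ S
      · have : {w : List A | (w.map f).prod ∈ S} = Set.univ := by
          apply Set.eq_univ_of_forall
          intro w
          change (w.map f).prod ∈ S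
          rw [Subsingleton.elim ((w.map f).prod) 1]
          exact h1
        rw [this]
        exact HS.univ n
      · have : {w : List A | (w.map f).prod ∈ S} = ∅ := by
          apply Set.eq_empty_of_forall_notMem
          intro w hw
          apply h1
          change (w.map f).prod ∈ S at hw
          rwa [Subsingleton.elim ((w.map f).prod) 1] at hw
        rw [this]
        exact HS.empty n
    · obtain ⟨N, hN, hne, hab⟩ := exists_abelian (G := G)
      by_cases hq : ∀ h : G ⧸ N, HS n {w : List A |
          (w.map (fun b => ((f b : G) : G ⧸ N))).prod = h}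
      · exact ⟨G, inferInstance, inferInstance, inferInstance, f, S,
          Pool.Agent.H815R3.GSH.step N f hab hq S, hS⟩
      · push Not at hq
        obtain ⟨h, hh⟩ := hq
        refine ih (G ⧸ N) ?_ (fun b => ((f b : G) : G ⧸ N)) {h} hh
        have h1 : Nat.card G = Nat.card (G ⧸ N) * Nat.card N := Subgroup.card_eq_card_quotient_mul_card_subgroup N
        have h2 : 1 < Nat.card N := by
          rw [Subgroup.one_lt_card_iff_ne_bot]
          exact hne
        have h3 : 0 < Nat.card (G ⧸ N) := Nat.card_pos
        nlinarith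

theorem result {A K G : Type} [Finite A] [Monoid K] [Finite K] [Group G] [Finite G]
    (f : A → K) (θ : K →* G) (hap : ∀ k : K, θ k = 1 → ∃ m : ℕ, k ^ (m + 1) = k ^ m)
    (T : Set K) (n : ℕ) (hn : 1 ≤ n)
    (hL : ∀ E : GRE A, E.lang = {w : List A | (w.map f).prod ∈ T} → n ≤ E.height) :
    (∃ L' : Language A, L'.IsRegular ∧ GroupLang L' ∧ ∀ E : GRE A, E.lang = L' → n ≤ E.height) ∧
    (Group.IsSolvable G → ∃ L' : Language A, L'.IsRegular ∧ GroupLang L' ∧ HasHeight n L') := by
  obtain ⟨n, rfl⟩ : ∃ m, n = m + 1 := ⟨n - 1, by omega⟩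
  have h1 : ¬ HS n {w : List A | (w.map f).prod ∈ T} := by
    intro h
    obtain ⟨E, h2, h3⟩ := Pool.Agent.H551.GSH.heightLE_of_HS h
    have := hL E h3
    omega
  have h2 : ∃ S : Set G, ¬ HS n {w : List A | (w.map (fun a => θ (f a))).prod ∈ S} := by
    by_contra hcon
    push Not at hcon
    exact h1 (Pool.Agent.H815R3.GSH.transfer θ f hap hcon T)
  obtain ⟨S, hS⟩ := h2
  have hge : ∀ {Q : Type} [Group Q] (f' : A → Q) (S' : Set Q),
      ¬ HS n {w : List A | (w.map f').prod ∈ S'} → ∀ E : GRE A,
      E.lang = {w : List A | (w.map f').prod ∈ S'} → n + 1 ≤ E.height := by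
    intro Q _ f' S' h E hE
    by_contra hlt
    apply h
    have := Pool.Agent.H551.GSH.HS_of_expr E (n := n) (by omega)
    rwa [hE] at this
  refine ⟨⟨_, regular_of_group _ S, groupLang_of_group _ S, hge _ S hS⟩, ?_⟩
  intro hsol
  obtain ⟨Q, _, _, _, f', S', h4, h5⟩ := descend n (Nat.card G) G le_rfl _ S hS
  exact ⟨_, regular_of_group f' S', groupLang_of_group f' S',
    Pool.Agent.H551.GSH.heightLE_of_HS h4, hge f' S' h5⟩

end Pool.Agent.Results.MP_1ffbee_lc.SolvableByAperiodic
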